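import Pool.Agent.K6.H96.SP.BoxM

/-!
Self-avoiding polygons on the square lattice: regularity to all orders, in the perimeter, of the
joint law of the width and the height, uniformly, also given rare increasing events.
-/

set_option autoImplicit false

namespace Pool.Agent.Results.MP_c23e5f_co.BoxLawAllOrders

open scoped Classical

/-- a closed nearest-neighbour loop on `ℤ²` with `m` steps, rooted at the origin and oriented,
that visits no vertex twice -/
def IsLoop (m : ℕ) (f : ZMod m → ℤ × ℤ) : Prop :=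
  f 0 = 0 ∧ Function.Injective f ∧
    ∀ i : ZMod m, |(f (i + 1)).1 - (f i).1| + |(f (i + 1)).2 - (f i).2| = 1

/-- the width (horizontal extent) of a loop -/
noncomputable def width (m : ℕ) (f : ZMod m → ℤ × ℤ) : ℕ :=
  sSup {w : ℕ | ∃ i j, w = ((f i).1 - (f j).1).natAbs}

/-- the height (vertical extent) of a loop -/
noncomputable def height (m : ℕ) (f : ZMod m → ℤ × ℤ) : ℕ :=
  sSup {w : ℕ | ∃ i j, w = ((f i).2 - (f j).2).natAbs}

/-- the mean `E_n[φ(width, height)]` over the self-avoiding polygons of perimeter `2 n`: the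
average over the rooted oriented polygons -/
noncomputable def mean (φ : ℕ → ℕ → ℝ) (n : ℕ) : ℝ :=
  (∑ᶠ f ∈ {f : ZMod (2 * n) → ℤ × ℤ | IsLoop (2 * n) f}, φ (width (2 * n) f) (height (2 * n) f)) /
    ({f : ZMod (2 * n) → ℤ × ℤ | IsLoop (2 * n) f}.ncard : ℝ)

/-- the probability `P_n(Q)` that the pair (width, height) has the property `Q` -/
noncomputable def prob (Q : ℕ → ℕ → Prop) (n : ℕ) : ℝ := mean (fun a b => if Q a b then 1 else 0) n

/-- the conditional mean `E_n[φ(width, height) | Q]` -/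
noncomputable def cmean (φ : ℕ → ℕ → ℝ) (Q : ℕ → ℕ → Prop) (n : ℕ) : ℝ :=
  mean (fun a b => if Q a b then φ a b else 0) n / prob Q n

/-- **Theorem.** For every `r` there are `c > 0` and `K` such that for every increasing property
`Q` of the pair (width, height) of a polygon and every `n ≥ 2` with `P_n(Q) ≥ exp (- c n)`, and with
`ε = √((log² n + log (1 / P_n(Q))) / n)`: the `r`-th difference of `log P_n(Q)` is at most
`K ε^r` in absolute value (if `r ≥ 1`), and the `r`-th difference of `E_n[φ(width, height) | Q]` is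
at most `K ε^r` in absolute value for all functions `φ` with values in `[-1, 1]` at once. -/
theorem result : ∀ r : ℕ, ∃ c K : ℝ, 0 < c ∧ ∀ Q : ℕ → ℕ → Prop,
    (∀ a b a' b', Q a b → a ≤ a' → b ≤ b' → Q a' b') →
    ∀ n : ℕ, 2 ≤ n → Real.exp (-(c * n)) ≤ prob Q n →
      (1 ≤ r → |∑ i ∈ Finset.range (r + 1), (-1 : ℝ) ^ i * (r.choose i : ℝ) *
        Real.log (prob Q (n + i))| ≤
          K * Real.sqrt ((Real.log n ^ 2 - Real.log (prob Q n)) / n) ^ r) ∧
      ∀ φ : ℕ → ℕ → ℝ, (∀ a b, |φ a b| ≤ 1) →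
        |∑ i ∈ Finset.range (r + 1), (-1 : ℝ) ^ i * (r.choose i : ℝ) * cmean φ Q (n + i)| ≤
          K * Real.sqrt ((Real.log n ^ 2 - Real.log (prob Q n)) / n) ^ r := by
  intro r
  obtain ⟨c, K, hc, hK, h⟩ := Pool.Agent.K6.H96.SP.loops_main 0 r
  refine ⟨c, K, hc, fun Q hQ n hn hP => ?_⟩
  have h1 := h Q hQ n hn hP
  simp only [pow_zero, mul_one] at h1
  exact h1.2

end Pool.Agent.Results.MP_c23e5f_co.BoxLawAllOrders
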