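import Pool.Agent.K6.H5.JW.Cor

/-!
# The joint law of the width and of the height of a self-avoiding polygon

For the uniform self-avoiding polygon of perimeter `2 n` on the square lattice, with width `w` and
height `h`,

`P_n (w ≥ k and h ≥ l) = exp (- 2 n I (k / n, l / n) + O ((log n)^2))`

for all `n ≥ 2` and all `k, l ≥ 1` with `k + l < n`, where `I` is the rate function of the end point
of the self-avoiding walk.  So a polygon with large width and height is, up to the factor, a closed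
chain of two `n`-step self-avoiding walks with end point `(k, l)`.

Proof.  Upper bound: a polygon is cut at its four extreme points.  The total horizontal variation of
the pieces is at least `2 k`, their total vertical variation is at least `2 l`; reflected pieces are
glued to a walk with `2 n` steps and end point `(2 k, 2 l)`.  Lower bound: a walk from `0` to `(k, l)`
is shifted cyclically at its highest point with respect to the line through `0` and `(k, l)`, and
loops are removed; so it stays below this line.  Two such walks, one of them rotated by 180 degrees,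
are glued to a polygon, and the removed steps are inserted as polygons at a side.
-/

set_option autoImplicit false

namespace Pool.Agent.Results.MP_c23e5f_co.JointWidthHeight

/-- a closed nearest-neighbour loop on `ℤ²` with `m` steps, rooted at the origin and oriented,
that visits no vertex twice -/
def IsLoop (m : ℕ) (f : ZMod m → ℤ × ℤ) : Prop :=
  f 0 = 0 ∧ Function.Injective f ∧
    ∀ i : ZMod m, |(f (i + 1)).1 - (f i).1| + |(f (i + 1)).2 - (f i).2| = 1

/-- the width (horizontal extent) of a loop -/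
noncomputable def width (m : ℕ) (f : ZMod m → ℤ × ℤ) : ℕ :=
  sSup {w : ℕ | ∃ i j, w = ((f i).1 - (f j).1).natAbs}

/-- the height (vertical extent) of a loop -/
noncomputable def height (m : ℕ) (f : ZMod m → ℤ × ℤ) : ℕ :=
  sSup {w : ℕ | ∃ i j, w = ((f i).2 - (f j).2).natAbs}

/-- the proportion of the self-avoiding polygons of perimeter `2 n` with width at least `k` and
height at least `l` -/
noncomputable def large (n k l : ℕ) : ℝ :=
  ({f : ZMod (2 * n) → ℤ × ℤ | IsLoop (2 * n) f ∧ k ≤ width (2 * n) f ∧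
      l ≤ height (2 * n) f}.ncard : ℝ) /
    ({f : ZMod (2 * n) → ℤ × ℤ | IsLoop (2 * n) f}.ncard : ℝ)

/-- `ω` is an `n`-step self-avoiding walk on `ℤ²` started at the origin. -/
def IsSAW (n : ℕ) (ω : Fin (n + 1) → ℤ × ℤ) : Prop :=
  ω 0 = (0, 0) ∧
  (∀ i : Fin n, |(ω i.succ).1 - (ω i.castSucc).1| + |(ω i.succ).2 - (ω i.castSucc).2| = 1) ∧
  Function.Injective ω

/-- `c_n`: the number of `n`-step self-avoiding walks from the origin -/
noncomputable def c (n : ℕ) : ℕ := Nat.card {ω : Fin (n + 1) → ℤ × ℤ // IsSAW n ω}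

/-- `c_n(x)`: the number of `n`-step self-avoiding walks from the origin to `x` -/
noncomputable def cx (n : ℕ) (x : ℤ × ℤ) : ℕ :=
  Nat.card {ω : Fin (n + 1) → ℤ × ℤ // IsSAW n ω ∧ ω (Fin.last n) = x}

/-- `P_n(ω(n) = x)`, the probability that the uniform `n`-step self-avoiding walk ends at `x` -/
noncomputable def P (n : ℕ) (x : ℤ × ℤ) : ℝ := (cx n x : ℝ) / (c n : ℝ)

theorem c_eq (n : ℕ) : c n = TH795.EP.c n := TH795.EP2.card_walks n

theorem cx_eq (n : ℕ) (x : ℤ × ℤ) : cx n x = TH795.EP.a n x.1 x.2 := TH795.EP2.card_walks_to n x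

theorem large_eq {n k l : ℕ} (hn : 1 ≤ n) (hk : 1 ≤ k) (hl : 1 ≤ l) :
    large n k l = (Pool.Agent.K6.H5.JW.jc k l (2 * n - 1) : ℝ) / Pool.Agent.Y981.L2.ln n := by
  rw [← Pool.Agent.K6.H5.JW.loops_eq hn]
  unfold large Pool.Agent.Y981.L2.ln
  congr 2
  congr 1
  ext f
  constructor
  · rintro ⟨h1, h2, h3⟩
    refine ⟨h1, (Pool.Agent.Y981.L2.le_width hn h1 hk).1 h2, ?_⟩
    obtain ⟨i, j, hij⟩ := (Pool.Agent.Y981.L2.le_width hn (Pool.Agent.Y981.L2.swp_loop h1) hl).1 h3
    exact ⟨i, j, hij⟩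
  · rintro ⟨h1, h2, i, j, hij⟩
    refine ⟨h1, (Pool.Agent.Y981.L2.le_width hn h1 hk).2 h2, ?_⟩
    exact (Pool.Agent.Y981.L2.le_width hn (Pool.Agent.Y981.L2.swp_loop h1) hl).2 ⟨i, j, hij⟩

/-- **Theorem.** There are a convex function `I` on the square `|v₁| + |v₂| ≤ 1`, with
`I (v₁, v₂) = I (|v₁|, |v₂|) = I (v₂, v₁)`, and a constant `K` such that for all `n ≥ 2`:
(1) `|log P_n(ω(n) = x) + n I(x / n)| ≤ K (log n)^2` for the uniform `n`-step self-avoiding walk `ω`
and every lattice point `x ≠ 0` which it can reach (so `I` is the rate function of the end point);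
(2) for all `k, l ≥ 1` with `k + l < n` the proportion of the self-avoiding polygons of perimeter
`2 n` with width at least `k` and height at least `l` is `exp (- 2 n I (k / n, l / n))` up to a factor
`exp (± K (log n)^2)`;
(3) for all `k ≥ 1` with `2 k < n` the proportion of the polygons with width and height at least `k`
is at least `exp (- K (log n)^2)` times the proportion of the polygons with width at least `2 k`. -/
theorem result : ∃ (I : ℝ × ℝ → ℝ) (K : ℝ), ConvexOn ℝ {v : ℝ × ℝ | |v.1| + |v.2| ≤ 1} I ∧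
    (∀ v : ℝ × ℝ, |v.1| + |v.2| ≤ 1 → I (|v.1|, |v.2|) = I v ∧ I (v.2, v.1) = I v) ∧
    ∀ n : ℕ, 2 ≤ n →
      (∀ x : ℤ × ℤ, x ≠ 0 → (x.1 + x.2 - n) % 2 = 0 → |x.1| + |x.2| ≤ n →
        |Real.log (P n x) + n * I ((x.1 : ℝ) / n, (x.2 : ℝ) / n)| ≤ K * Real.log n ^ 2) ∧
      (∀ k l : ℕ, 1 ≤ k → 1 ≤ l → k + l < n → 0 < large n k l ∧
        |Real.log (large n k l) + 2 * n * I ((k : ℝ) / n, (l : ℝ) / n)| ≤ K * Real.log n ^ 2) ∧
      (∀ k : ℕ, 1 ≤ k → 2 * k < n →
        large n (2 * k) 0 ≤ Real.exp (K * Real.log n ^ 2) * large n k k) := by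
  obtain ⟨K1, hK1, h1⟩ := Pool.Agent.Y981.L2.ldp_words
  obtain ⟨K2, hK2, h2⟩ := Pool.Agent.K6.H5.JW.joint_law
  obtain ⟨K3, hK3, h3⟩ := Pool.Agent.Y981.L2.pw_ldp
  refine ⟨Pool.Agent.Y981.L2.Rate, K1 + K2 + K3, Pool.Agent.Y981.L2.convex_rate, ?_, ?_⟩
  · intro v hv
    exact ⟨Pool.Agent.K6.H5.JW.rate_abs v hv, Pool.Agent.K6.H5.JW.rate_sw v⟩
  intro n hn
  have hL : 0 ≤ Real.log (n : ℝ) ^ 2 := by positivity
  have z1 : 0 ≤ K1 * Real.log (n : ℝ) ^ 2 := by positivity
  have z2 : 0 ≤ K2 * Real.log (n : ℝ) ^ 2 := by positivity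
  have z3 : 0 ≤ K3 * Real.log (n : ℝ) ^ 2 := by positivity
  have hmain : ∀ k l : ℕ, 1 ≤ k → 1 ≤ l → k + l < n → 0 < large n k l ∧
      |Real.log (large n k l) + 2 * n * Pool.Agent.Y981.L2.Rate ((k : ℝ) / n, (l : ℝ) / n)| ≤
        K2 * Real.log n ^ 2 := by
    intro k l hk hl hkl
    obtain ⟨g1, g2⟩ := h2 n hn k l (by omega) (by omega) (by omega)
    have hln : (0 : ℝ) < Pool.Agent.Y981.L2.ln n := (Pool.Agent.Y981.L2.ln_le.choose_spec.2 n hn).1
    rw [large_eq (by omega) hk hl]
    refine ⟨div_pos g1 hln, ?_⟩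
    simpa using g2
  refine ⟨?_, ?_, ?_⟩
  · intro x hx hpar hle
    have h := h1 n hn x.1 x.2 hx hpar hle
    unfold P
    rw [c_eq, cx_eq]
    linarith
  · intro k l hk hl hkl
    obtain ⟨g1, g2⟩ := hmain k l hk hl hkl
    exact ⟨g1, by linarith⟩
  · intro k hk hkn
    obtain ⟨g1, g2⟩ := hmain k k hk hk (by omega)
    obtain ⟨-, g4⟩ := h3 n hn (2 * k) (by omega) (by omega)
    have e1 : large n (2 * k) 0 = Pool.Agent.Y981.L2.pw n ((2 * k : ℕ) : ℝ) := by
      unfold large Pool.Agent.Y981.L2.pw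
      congr 2
      congr 1
      ext f
      constructor
      · rintro ⟨a1, a2, -⟩
        exact ⟨a1, by exact_mod_cast a2⟩
      · rintro ⟨a1, a2⟩
        exact ⟨a1, by exact_mod_cast a2, Nat.zero_le _⟩
    rw [e1]
    refine g4.trans ?_
    have hn0 : (0 : ℝ) < n := by exact_mod_cast (by omega : 0 < n)
    have hv0 : (0 : ℝ) ≤ (k : ℝ) / n := by positivity
    have hv1 : 2 * ((k : ℝ) / n) ≤ 1 := by
      rw [← mul_div_assoc, div_le_one hn0]
      exact_mod_cast hkn.le
    have hd := Pool.Agent.K6.H5.JW.rate_diag hv0 hv1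
    have e2 : Pool.Agent.Y981.L2.R (((2 * k : ℕ) : ℝ) / n) =
        Pool.Agent.Y981.L2.Rate (2 * ((k : ℝ) / n), 0) := by
      unfold Pool.Agent.Y981.L2.R
      push_cast
      rw [mul_div_assoc]
    rw [e2]
    rw [abs_le] at g2
    have g5 : large n k k = Real.exp (Real.log (large n k k)) := (Real.exp_log g1).symm
    rw [g5, ← Real.exp_add]
    apply Real.exp_le_exp.2
    have h6 := mul_le_mul_of_nonneg_left hd hn0.le
    linarith [g2.1]

end Pool.Agent.Results.MP_c23e5f_co.JointWidthHeight
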