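import Pool.Agent.K6.H36.PJ.Strip3

/-!
# Polygons of bounded width: growth constants, the lower tail of the width and the mean width

Let `m_k` be the growth constant of the square-lattice self-avoiding polygons of width at most `k`
and `μ` the growth constant of all polygons. For all `n` and `k` the number of the polygons of
perimeter `2 n` and width at most `k` is at most a polynomial in `n` and `k` times `m_k^(2n)`. So the
proportion of these polygons is at most `exp(K (log n)²) (m_k / μ)^(2n)`, and the mean width `W_n` is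
at least `(k + 1) / 2` as soon as `2 n log(μ / m_k) ≥ K (log n)²`. In particular the bound
`log(μ / m_k) ≥ c k^(-4/3)` implies `W_n ≥ c' n^(3/4) / (log n)^(3/2)`, and `W_n ≤ C n^(3/4)` implies
`log(μ / m_k) ≤ C' k^(-4/3) (log k)²`.

Method. Polygons in a strip are classified by the columns `a`, `b` of the last vertex of the bottom
row and of the last vertex of the top row. A polygon of the class `(a, b)` and the reflection of
another polygon of the class `(a, b)` are joined to a polygon of the class `(a, a)`; the pair and the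
root are recovered from the rooted join. So the class `(a, a)` is supermultiplicative without loss,
and every class is at most the square root of such a class at the double perimeter.
-/

set_option autoImplicit false

namespace Pool.Agent.Results.MP_c23e5f_co.SmallWidths

open Filter Topology

/-- a closed nearest-neighbour loop on `ℤ²` with `m` steps, rooted at the origin and oriented,
that visits no vertex twice -/
def IsLoop (m : ℕ) (f : ZMod m → ℤ × ℤ) : Prop :=
  f 0 = 0 ∧ Function.Injective f ∧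
    ∀ i : ZMod m, |(f (i + 1)).1 - (f i).1| + |(f (i + 1)).2 - (f i).2| = 1

/-- the width (horizontal extent) of a loop -/
noncomputable def width (m : ℕ) (f : ZMod m → ℤ × ℤ) : ℕ :=
  sSup {w : ℕ | ∃ i j, w = ((f i).1 - (f j).1).natAbs}

/-- the number of the rooted oriented polygons of perimeter `2 n` (`4 n` times the number of the
polygons up to translation, for `n ≥ 2`) -/
noncomputable def N (n : ℕ) : ℕ := {f : ZMod (2 * n) → ℤ × ℤ | IsLoop (2 * n) f}.ncard

/-- the number of the rooted oriented polygons of perimeter `2 n` and width at most `k` -/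
noncomputable def Nw (k n : ℕ) : ℕ :=
  {f : ZMod (2 * n) → ℤ × ℤ | IsLoop (2 * n) f ∧ width (2 * n) f ≤ k}.ncard

/-- the mean width `W_n` of the self-avoiding polygons of perimeter `2 n` -/
noncomputable def W (n : ℕ) : ℝ :=
  (∑ᶠ f ∈ {f : ZMod (2 * n) → ℤ × ℤ | IsLoop (2 * n) f}, (width (2 * n) f : ℝ)) /
    ({f : ZMod (2 * n) → ℤ × ℤ | IsLoop (2 * n) f}.ncard : ℝ)

open Pool.Agent.K6.H36.PJ

theorem N_eq {n : ℕ} (hn : 1 ≤ n) : (N n : ℝ) = Zl 0 (2 * n) := by
  have : NeZero (2 * n) := ⟨by omega⟩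
  have e : N n = {f : ZMod (2 * n) → ℤ × ℤ | Pool.Agent.N223.PS.IsLoop (2 * n) f}.ncard := rfl
  rw [Zl_zero, e]
  unfold LF
  rw [dif_pos (loops_finite (2 * n)), Set.ncard_eq_toFinset_card _ (loops_finite (2 * n))]

theorem Nw_eq {n : ℕ} (hn : 1 ≤ n) (k : ℕ) : (Nw k n : ℝ) = Nn k (2 * n) := by
  classical
  have : NeZero (2 * n) := ⟨by omega⟩
  have e : Nw k n = {f : ZMod (2 * n) → ℤ × ℤ | Pool.Agent.N223.PS.IsLoop (2 * n) f ∧
    wid (2 * n) f ≤ k}.ncard := rfl
  unfold Nn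
  rw [← Finset.sum_filter, Finset.sum_const, nsmul_eq_mul, mul_one, e, ← Set.ncard_coe_finset]
  congr 2
  ext f
  rw [Finset.coe_filter]
  constructor
  · rintro ⟨h1, h2⟩
    exact ⟨(mem_LF (by omega)).2 h1, h2⟩
  · rintro ⟨h1, h2⟩
    exact ⟨(mem_LF (by omega)).1 h1, h2⟩

theorem W_eq {n : ℕ} (hn : 1 ≤ n) : W n = mW n := by
  have : NeZero (2 * n) := ⟨by omega⟩
  have h : W n = (∑ᶠ f ∈ {f : ZMod (2 * n) → ℤ × ℤ | Pool.Agent.N223.PS.IsLoop (2 * n) f},
      (wid (2 * n) f : ℝ)) / (N n : ℝ) := rfl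
  rw [h, N_eq hn]
  unfold mW
  congr 1
  rw [finsum_mem_eq_finite_toFinset_sum _ (loops_finite (2 * n))]
  unfold LF
  rw [dif_pos (loops_finite (2 * n))]

theorem root_tendsto {u : ℕ → ℝ} {l : ℝ} (hu : ∀ n, 1 ≤ n → 0 < u n)
    (h : Tendsto (fun n : ℕ => Real.log (u n) / (2 * n)) atTop (𝓝 l)) :
    Tendsto (fun n : ℕ => u n ^ (1 / (2 * (n : ℝ)))) atTop (𝓝 (Real.exp l)) := by
  refine ((Real.continuous_exp.tendsto l).comp h).congr' ?_
  filter_upwards [eventually_ge_atTop 1] with n hn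
  simp only [Function.comp]
  rw [Real.rpow_def_of_pos (hu n hn)]
  congr 1
  ring

/-- **Theorem.** There are `μ > 0`, a sequence `m` and a constant `K` such that
* the number `N_n` of the polygons of perimeter `2 n` satisfies `N_n^(1/(2n)) → μ`, and for every
  `k ≥ 1` the number `N_n(k)` of the polygons of perimeter `2 n` and width at most `k` satisfies
  `N_n(k)^(1/(2n)) → m_k`, where `0 < m_k ≤ m_(k+1) ≤ μ`;
* `log(μ / m_k) ≤ K (log k)² / k` for all `k ≥ 2`;
* for all `n ≥ 2` and all `k ≥ 1`: `N_n(k) ≤ 8 n (k+1)² m_k^(2n)`,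
  `N_n(k) / N_n ≤ exp(K (log n)²) (m_k / μ)^(2n)`, and if `K (log n)² ≤ 2 n log(μ / m_k)` then
  `W_n ≥ (k + 1) / 2`;
* if `θ > 0` and `log(μ / m_k) ≥ c k^(-1/θ)` for all `k ≥ 1`, where `c > 0`, then there is `c' > 0`
  with `W_n ≥ c' (n / (log n)²)^θ` for all `n ≥ 2`;
* if `θ > 0` and `W_n ≤ C n^θ` for all `n ≥ 2`, then there is `C'` with
  `log(μ / m_k) ≤ C' k^(-1/θ) (log k)²` for all `k ≥ 2`. -/
theorem result : ∃ (μ : ℝ) (m : ℕ → ℝ) (K : ℝ), 0 < μ ∧
    Tendsto (fun n : ℕ => (N n : ℝ) ^ (1 / (2 * (n : ℝ)))) atTop (𝓝 μ) ∧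
    (∀ k : ℕ, 1 ≤ k → 0 < m k ∧ m k ≤ m (k + 1) ∧ m k ≤ μ ∧
      Tendsto (fun n : ℕ => (Nw k n : ℝ) ^ (1 / (2 * (n : ℝ)))) atTop (𝓝 (m k))) ∧
    (∀ k : ℕ, 2 ≤ k → Real.log (μ / m k) ≤ K * Real.log k ^ 2 / k) ∧
    (∀ n : ℕ, 2 ≤ n → ∀ k : ℕ, 1 ≤ k →
      (Nw k n : ℝ) ≤ 8 * n * ((k : ℝ) + 1) ^ 2 * m k ^ (2 * n) ∧
      (Nw k n : ℝ) / N n ≤ Real.exp (K * Real.log n ^ 2) * (m k / μ) ^ (2 * n) ∧
      (K * Real.log n ^ 2 ≤ 2 * n * Real.log (μ / m k) → ((k : ℝ) + 1) / 2 ≤ W n)) ∧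
    (∀ θ c : ℝ, 0 < θ → 0 < c →
      (∀ k : ℕ, 1 ≤ k → c * (k : ℝ) ^ (-(1 / θ)) ≤ Real.log (μ / m k)) →
      ∃ c' : ℝ, 0 < c' ∧ ∀ n : ℕ, 2 ≤ n → c' * ((n : ℝ) / Real.log n ^ 2) ^ θ ≤ W n) ∧
    (∀ θ C : ℝ, 0 < θ → (∀ n : ℕ, 2 ≤ n → W n ≤ C * (n : ℝ) ^ θ) →
      ∃ C' : ℝ, ∀ k : ℕ, 2 ≤ k →
        Real.log (μ / m k) ≤ C' * ((k : ℝ) ^ (-(1 / θ)) * Real.log k ^ 2)) := by
  obtain ⟨K1, hK1, h1⟩ := gap_le
  obtain ⟨K2, hK2, h2⟩ := narrow_le
  obtain ⟨K3, hK3, h3⟩ := mean_width_ge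
  have hmu : 0 < H981.mu := H981.mu_pos
  have hlog : ∀ k : ℕ, Real.log (H981.mu / Real.exp (rk k)) = hk k := by
    intro k
    rw [Real.log_div hmu.ne' (Real.exp_pos _).ne', Real.log_exp]
    rfl
  have hgap : ∀ n : ℕ, 2 ≤ n → ∀ k : ℕ, 1 ≤ k →
      (K1 + K2 + K3) * Real.log n ^ 2 ≤ 2 * n * hk k → ((k : ℝ) + 1) / 2 ≤ W n := by
    intro n hn k hk1 h
    rw [W_eq (by omega)]
    refine h3 n hn k hk1 (le_trans ?_ h)
    apply mul_le_mul_of_nonneg_right _ (sq_nonneg _)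
    linarith
  have hW1 : ∀ n : ℕ, 2 ≤ n → 1 ≤ W n := fun n hn => by
    rw [W_eq (by omega)]
    exact mW_ge_one hn
  refine ⟨H981.mu, fun k => Real.exp (rk k), K1 + K2 + K3, hmu, ?_, ?_, ?_, ?_, ?_, ?_⟩
  · have h := root_tendsto (u := fun n => Zl 0 (2 * n)) (fun n hn => Zl_pos 0 hn)
      (Zl_tendsto le_rfl)
    rw [Lam_zero, Real.exp_log hmu] at h
    refine h.congr' ?_
    filter_upwards [eventually_ge_atTop 1] with n hn
    rw [N_eq hn]
  · intro k hk1
    refine ⟨Real.exp_pos _, Real.exp_le_exp.2 (rk_mono hk1 (by omega)), ?_, ?_⟩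
    · rw [← Real.exp_log hmu]
      exact Real.exp_le_exp.2 (rk_le hk1)
    · have h := root_tendsto (u := fun n => Nn k (2 * n)) (fun n hn => Nn_pos hk1 hn)
        (Nn_tendsto hk1)
      refine h.congr' ?_
      filter_upwards [eventually_ge_atTop 1] with n hn
      rw [Nw_eq hn]
  · intro k hk2
    rw [hlog]
    have hk0 : (0 : ℝ) < k := by exact_mod_cast (by omega : 0 < k)
    refine (h1 k hk2).trans ?_
    apply div_le_div_of_nonneg_right _ hk0.le
    apply mul_le_mul_of_nonneg_right _ (sq_nonneg _)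
    linarith
  · intro n hn k hk1
    have e1 : ∀ x : ℝ, Real.exp x ^ (2 * n) = Real.exp (2 * n * x) := by
      intro x
      rw [← Real.exp_nat_mul]
      push_cast
      rfl
    refine ⟨?_, ?_, ?_⟩
    · rw [Nw_eq (by omega), e1]
      exact Nn_le_exp hk1 hn
    · rw [Nw_eq (by omega), N_eq (by omega)]
      refine (h2 n hn k hk1).trans ?_
      have e2 : Real.exp (rk k) / H981.mu = Real.exp (-hk k) := by
        unfold hk
        rw [neg_sub, Real.exp_sub, Real.exp_log hmu]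
      rw [e2, e1, ← Real.exp_add]
      apply Real.exp_le_exp.2
      have : K2 * Real.log n ^ 2 ≤ (K1 + K2 + K3) * Real.log n ^ 2 :=
        mul_le_mul_of_nonneg_right (by linarith) (sq_nonneg _)
      linarith
    · rw [hlog]
      exact hgap n hn k hk1
  · intro θ c hθ hc hH
    simp only [hlog] at hH
    exact width_ge_of (by positivity) hgap hW1 hθ hc hH
  · intro θ C hθ hC
    simp only [hlog]
    refine gap_le_of (by positivity) hgap hW1 hθ hC (B := hk 1) ?_
    intro k hk1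
    have := rk_mono le_rfl hk1
    unfold hk
    linarith

end Pool.Agent.Results.MP_c23e5f_co.SmallWidths
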