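import Pool.Agent.K6.H36.PJ.Sq3
import Pool.Agent.Y981.L2X.PolyW

/-!
# Dense polygons: the pressure in a square, the mean width and the correlation length

Let `Z_w(x)` be the sum of `x^|P|` over the self-avoiding polygons `P` of `ℤ²` in a square of side
`w`, up to translation, and `λ(x) = lim w⁻² log Z_w(x)`. This pressure vanishes for `x ≤ 1/μ` and is
positive for `x > 1/μ` (dense phase). We bound it below by the mean width `W_n` of the polygons of
perimeter `2 n`: `λ(x) ≥ (2 n log(μ x) - K (log n)²) / (25 W_n²)` for all `n` and `x`. Equivalently,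
the mean width at perimeter `2 n` is at least `log n / √(K λ(x_n))` for `x_n = e^(K (log n)²/n) / μ`.
With the upper bound of `W_n` by the correlation length `ξ` of the walk this gives the hyperscaling
inequality `λ(x_n) ξ(z_n)² (log n)² ≥ 1/K` between the two sides `x_n > 1/μ > z_n = e^(-1/(2n)) / μ`
of the critical point. The bounds come from a lower bound for the probability of confinement: for
perimeter `2 k² n` a polygon is in a square of side `5 k W_n` with probability at least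
`exp(-K k² (log n)²)`.

Method. Polygons in a box are classified by the columns of the last vertices of the bottom row and
of the top row; a stack of polygons of the most frequent class and of their reflections is joined to
one polygon. Stacks of equal height are turned by 90 degrees, classified and joined in the same way.
The pieces are recovered from the result, so only a factor polynomial in `n` is lost for each of the
`k²` pieces.
-/

set_option autoImplicit false

namespace Pool.Agent.Results.MP_c23e5f_co.SupercriticalPressure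

open Filter Topology

/-- a closed nearest-neighbour loop on `ℤ²` with `m` steps, rooted at the origin and oriented,
that visits no vertex twice -/
def IsLoop (m : ℕ) (f : ZMod m → ℤ × ℤ) : Prop :=
  f 0 = 0 ∧ Function.Injective f ∧
    ∀ i : ZMod m, |(f (i + 1)).1 - (f i).1| + |(f (i + 1)).2 - (f i).2| = 1

/-- the width (horizontal extent) of a loop -/
noncomputable def width (m : ℕ) (f : ZMod m → ℤ × ℤ) : ℕ :=
  sSup {w : ℕ | ∃ i j, w = ((f i).1 - (f j).1).natAbs}

/-- the height (vertical extent) of a loop -/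
noncomputable def height (m : ℕ) (f : ZMod m → ℤ × ℤ) : ℕ :=
  sSup {w : ℕ | ∃ i j, w = ((f i).2 - (f j).2).natAbs}

/-- the number of the rooted oriented polygons of perimeter `2 n` (`4 n` times the number of the
polygons up to translation, for `n ≥ 2`) -/
noncomputable def N (n : ℕ) : ℕ := {f : ZMod (2 * n) → ℤ × ℤ | IsLoop (2 * n) f}.ncard

/-- the number of the rooted oriented polygons of perimeter `2 n` whose width and height are at most
`r` -/
noncomputable def Nsq (r : ℝ) (n : ℕ) : ℕ :=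
  {f : ZMod (2 * n) → ℤ × ℤ | IsLoop (2 * n) f ∧ (width (2 * n) f : ℝ) ≤ r ∧
    (height (2 * n) f : ℝ) ≤ r}.ncard

/-- `Z_w(x)`: the sum of `x^(2n) = x^|P|` over all self-avoiding polygons `P` in a square of side
`w`, up to translation. Each of them has at most `(w + 1)²` vertices and corresponds to `4 n` rooted
oriented polygons. -/
noncomputable def Z (x : ℝ) (w : ℕ) : ℝ :=
  ∑ n ∈ Finset.Icc 2 ((w + 1) ^ 2), (Nsq w n : ℝ) / (4 * n) * x ^ (2 * n)

/-- the mean width `W_n` of the self-avoiding polygons of perimeter `2 n` -/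
noncomputable def W (n : ℕ) : ℝ :=
  (∑ᶠ f ∈ {f : ZMod (2 * n) → ℤ × ℤ | IsLoop (2 * n) f}, (width (2 * n) f : ℝ)) /
    ({f : ZMod (2 * n) → ℤ × ℤ | IsLoop (2 * n) f}.ncard : ℝ)

/-- `ω` is an `n`-step self-avoiding walk on `ℤ²` started at the origin. -/
def IsSAW (n : ℕ) (ω : Fin (n + 1) → ℤ × ℤ) : Prop :=
  ω 0 = (0, 0) ∧
  (∀ i : Fin n, |(ω i.succ).1 - (ω i.castSucc).1| + |(ω i.succ).2 - (ω i.castSucc).2| = 1) ∧
  Function.Injective ω

/-- `c_n(x)`: the number of `n`-step self-avoiding walks from the origin to `x` -/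
noncomputable def cx (n : ℕ) (x : ℤ × ℤ) : ℕ :=
  Nat.card {ω : Fin (n + 1) → ℤ × ℤ // IsSAW n ω ∧ ω (Fin.last n) = x}

/-- the two-point function `G_z(x) = ∑_n c_n(x) z^n` -/
noncomputable def G (z : ℝ) (x : ℤ × ℤ) : ℝ := ∑' n : ℕ, (cx n x : ℝ) * z ^ n

open Pool.Agent.K6.H36.PJ

theorem N_eq {n : ℕ} (hn : 1 ≤ n) : (N n : ℝ) = Zl 0 (2 * n) := by
  have : NeZero (2 * n) := ⟨by omega⟩
  have e : N n = {f : ZMod (2 * n) → ℤ × ℤ | Pool.Agent.N223.PS.IsLoop (2 * n) f}.ncard := rfl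
  rw [Zl_zero, e]
  unfold LF
  rw [dif_pos (loops_finite (2 * n)), Set.ncard_eq_toFinset_card _ (loops_finite (2 * n))]

theorem height_eq {m : ℕ} (f : ZMod m → ℤ × ℤ) : height m f = wid m (swp f) := rfl

theorem Nsq_ge {n : ℕ} (hn : 1 ≤ n) {w : ℕ} {r : ℝ} (hr : (w : ℝ) ≤ r) :
    Bn w w (2 * n) ≤ (Nsq r n : ℝ) := by
  classical
  have : NeZero (2 * n) := ⟨by omega⟩
  unfold Bn Nsq
  rw [← Finset.sum_filter, Finset.sum_const, nsmul_eq_mul, mul_one, ← Set.ncard_coe_finset]
  have hfin : {f : ZMod (2 * n) → ℤ × ℤ | IsLoop (2 * n) f ∧ (width (2 * n) f : ℝ) ≤ r ∧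
      (height (2 * n) f : ℝ) ≤ r}.Finite :=
    (loops_finite (2 * n)).subset fun f hf => hf.1
  refine Nat.cast_le.2 (Set.ncard_le_ncard ?_ hfin)
  intro f hf
  rw [Finset.coe_filter] at hf
  obtain ⟨h1, h2, h3⟩ := hf
  refine ⟨(mem_LF (by omega)).1 h1, ?_, ?_⟩
  · refine le_trans ?_ hr
    exact_mod_cast nr_wid.1 h2
  · refine le_trans ?_ hr
    have h4 : Nr (w : ℤ) (swp f) := h3
    rw [height_eq]
    exact_mod_cast nr_wid.1 h4

theorem Nsq_eq {n : ℕ} (hn : 1 ≤ n) (w : ℕ) : (Nsq w n : ℝ) = Bn w w (2 * n) := by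
  classical
  have : NeZero (2 * n) := ⟨by omega⟩
  unfold Bn Nsq
  rw [← Finset.sum_filter, Finset.sum_const, nsmul_eq_mul, mul_one, ← Set.ncard_coe_finset]
  congr 2
  ext f
  rw [Finset.coe_filter]
  constructor
  · rintro ⟨h1, h2, h3⟩
    refine ⟨(mem_LF (by omega)).2 h1, nr_wid.2 (by exact_mod_cast h2), ?_⟩
    have h4 : Nr (w : ℤ) (swp f) := nr_wid.2 (by rw [← height_eq]; exact_mod_cast h3)
    exact h4
  · rintro ⟨h1, h2, h3⟩
    have h4 : Nr (w : ℤ) (swp f) := h3
    refine ⟨(mem_LF (by omega)).1 h1, ?_, ?_⟩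
    · exact_mod_cast nr_wid.1 h2
    · rw [height_eq]
      exact_mod_cast nr_wid.1 h4

theorem Z_eq (x : ℝ) (w : ℕ) : Z x w = Zs x w := by
  unfold Z Zs
  refine Finset.sum_congr rfl fun n hn => ?_
  rw [Finset.mem_Icc] at hn
  rw [Nsq_eq (by omega)]

theorem W_eq {n : ℕ} (hn : 1 ≤ n) : W n = mW n := by
  have : NeZero (2 * n) := ⟨by omega⟩
  have h : W n = (∑ᶠ f ∈ {f : ZMod (2 * n) → ℤ × ℤ | Pool.Agent.N223.PS.IsLoop (2 * n) f},
      (wid (2 * n) f : ℝ)) / (N n : ℝ) := rfl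
  rw [h, N_eq hn]
  unfold mW
  congr 1
  rw [finsum_mem_eq_finite_toFinset_sum _ (loops_finite (2 * n))]
  unfold LF
  rw [dif_pos (loops_finite (2 * n))]

theorem root_tendsto {u : ℕ → ℝ} {l : ℝ} (hu : ∀ n, 1 ≤ n → 0 < u n)
    (h : Tendsto (fun n : ℕ => Real.log (u n) / (2 * n)) atTop (𝓝 l)) :
    Tendsto (fun n : ℕ => u n ^ (1 / (2 * (n : ℝ)))) atTop (𝓝 (Real.exp l)) := by
  refine ((Real.continuous_exp.tendsto l).comp h).congr' ?_
  filter_upwards [eventually_ge_atTop 1] with n hn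
  simp only [Function.comp]
  rw [Real.rpow_def_of_pos (hu n hn)]
  congr 1
  ring

theorem cx_eq (n : ℕ) (x : ℤ × ℤ) : cx n x = TH795.EP.a n x.1 x.2 := TH795.EP2.card_walks_to n x

theorem G_eq (z : ℝ) (k : ℕ) : G z ((k : ℤ), 0) = Y981.L2.Gz z k 0 := by
  unfold G Y981.L2.Gz
  apply tsum_congr
  intro n
  rw [cx_eq]

/-- **Theorem.** Let `μ = lim N_n^(1/(2n))`. There are a function `λ`, the correlation length `ξ` of
the self-avoiding walk (on `(0, 1/μ)`) and a constant `K > 0` such that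
* for all `x > 0`: `w⁻² log Z_w(x) → λ(x)`, `0 ≤ λ(x) ≤ max(0, log(μ x))`, and `λ(x) > 0` if and only
  if `x > 1/μ`; `λ` is nondecreasing;
* `λ(x) ≥ (2 n log(μ x) - K (log n)²) / (25 W_n²)` for all `n ≥ 2` and `x > 0`;
* for all `n ≥ 2`, with `x_n = e^(K (log n)²/n) / μ`: `K λ(x_n) W_n² ≥ (log n)²` and
  `K λ(x_n) ξ(e^(-1/(2n)) / μ)² (log n)² ≥ 1`;
* for all `k ≥ 1` and `n ≥ 2` the proportion of the polygons of perimeter `2 k² n` whose width and
  height are at most `5 k W_n` is at least `exp(-K k² (log n)²)`;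
* if `θ > 0` and `λ(e^ε / μ) ≤ C ε^(2θ)` for all `0 < ε ≤ 1`, then there is `c > 0` with
  `W_n ≥ c (n / (log n)²)^θ` for all `n ≥ 2`. -/
theorem result : ∃ (μ : ℝ) (lam ξ : ℝ → ℝ) (K : ℝ), 0 < μ ∧ 0 < K ∧
    Tendsto (fun n : ℕ => (N n : ℝ) ^ (1 / (2 * (n : ℝ)))) atTop (𝓝 μ) ∧
    (∀ z : ℝ, 0 < z → z < 1 / μ → 0 < ξ z ∧
      Tendsto (fun k : ℕ => - Real.log (G z ((k : ℤ), 0)) / k) atTop (𝓝 (1 / ξ z))) ∧
    (∀ x : ℝ, 0 < x →
      Tendsto (fun w : ℕ => Real.log (Z x w) / (w : ℝ) ^ 2) atTop (𝓝 (lam x)) ∧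
      0 ≤ lam x ∧ lam x ≤ max 0 (Real.log (μ * x)) ∧ (0 < lam x ↔ 1 / μ < x)) ∧
    (∀ x y : ℝ, 0 < x → x ≤ y → lam x ≤ lam y) ∧
    (∀ n : ℕ, 2 ≤ n → ∀ x : ℝ, 0 < x →
      (2 * n * Real.log (μ * x) - K * Real.log n ^ 2) / (25 * W n ^ 2) ≤ lam x) ∧
    (∀ n : ℕ, 2 ≤ n →
      Real.log n ^ 2 ≤ K * lam (Real.exp (K * Real.log n ^ 2 / n) / μ) * W n ^ 2 ∧
      1 ≤ K * lam (Real.exp (K * Real.log n ^ 2 / n) / μ) *
        ξ (Real.exp (-1 / (2 * n)) / μ) ^ 2 * Real.log n ^ 2) ∧
    (∀ k n : ℕ, 1 ≤ k → 2 ≤ n →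
      Real.exp (-(K * k ^ 2 * Real.log n ^ 2)) ≤
        (Nsq (5 * k * W n) (k ^ 2 * n) : ℝ) / N (k ^ 2 * n)) ∧
    (∀ θ C : ℝ, 0 < θ →
      (∀ ε : ℝ, 0 < ε → ε ≤ 1 → lam (Real.exp ε / μ) ≤ C * ε ^ (2 * θ)) →
      ∃ c : ℝ, 0 < c ∧ ∀ n : ℕ, 2 ≤ n → c * ((n : ℝ) / Real.log n ^ 2) ^ θ ≤ W n) := by
  obtain ⟨K1, hK1, h1⟩ := lam_ge_width
  obtain ⟨K2, hK2, h2⟩ := confine
  obtain ⟨K3, hK3, h3⟩ := Y981.L2X.width_mean
  have hmu : 0 < H981.mu := H981.mu_pos
  obtain ⟨K, hK⟩ : ∃ K : ℝ, K = K1 + K2 + 5 * K3 + 5 := ⟨_, rfl⟩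
  have hK0 : 0 < K := by rw [hK]; positivity
  have hlog : ∀ ε : ℝ, Real.log (H981.mu * (Real.exp ε / H981.mu)) = ε := by
    intro ε
    rw [mul_div_cancel₀ _ hmu.ne', Real.log_exp]
  have hd : ∀ n : ℕ, 2 ≤ n → ∀ x : ℝ, 0 < x →
      (2 * n * Real.log (H981.mu * x) - K * Real.log n ^ 2) / (25 * W n ^ 2) ≤ lam x := by
    intro n hn x hx
    rw [W_eq (by omega)]
    refine le_trans ?_ (h1 n hn x hx)
    apply div_le_div_of_nonneg_right _ (by positivity)
    have : K1 * Real.log n ^ 2 ≤ K * Real.log n ^ 2 :=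
      mul_le_mul_of_nonneg_right (by rw [hK]; linarith) (sq_nonneg _)
    linarith
  have hW1 : ∀ n : ℕ, 2 ≤ n → 1 ≤ W n := fun n hn => by
    rw [W_eq (by omega)]
    exact mW_ge_one hn
  have hf0 : ∀ n : ℕ, 2 ≤ n → K * Real.log n ^ 2 ≤
      25 * W n ^ 2 * lam (Real.exp (K * Real.log n ^ 2 / n) / H981.mu) := by
    intro n hn
    have hn0 : (0 : ℝ) < n := by exact_mod_cast (by omega : 0 < n)
    have hW := hW1 n hn
    have h4 := hd n hn (Real.exp (K * Real.log n ^ 2 / n) / H981.mu) (by positivity)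
    rw [hlog, div_le_iff₀ (by positivity)] at h4
    have e : 2 * (n : ℝ) * (K * Real.log n ^ 2 / n) = 2 * (K * Real.log n ^ 2) := by
      field_simp
    rw [e] at h4
    linarith
  have hf : ∀ n : ℕ, 2 ≤ n → Real.log n ^ 2 ≤
      K * lam (Real.exp (K * Real.log n ^ 2 / n) / H981.mu) * W n ^ 2 := by
    intro n hn
    have h4 := hf0 n hn
    have h5 := lam_nonneg (x := Real.exp (K * Real.log n ^ 2 / n) / H981.mu) (by positivity)
    have h6 : 25 ≤ K * K := by
      have : 5 ≤ K := by rw [hK]; linarith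
      nlinarith
    have h7 : K * Real.log n ^ 2 ≤
        K * (K * lam (Real.exp (K * Real.log n ^ 2 / n) / H981.mu) * W n ^ 2) := by
      refine h4.trans ?_
      have h8 : 0 ≤ W n ^ 2 * lam (Real.exp (K * Real.log n ^ 2 / n) / H981.mu) :=
        mul_nonneg (sq_nonneg _) h5
      have := mul_le_mul_of_nonneg_right h6 h8
      linarith
    exact le_of_mul_le_mul_left h7 hK0
  refine ⟨H981.mu, lam, Y981.L2.xi, K, hmu, hK0, ?_, ?_, ?_, ?_, hd, ?_, ?_, ?_⟩
  · have h := root_tendsto (u := fun n => Zl 0 (2 * n)) (fun n hn => Zl_pos 0 hn)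
      (Zl_tendsto le_rfl)
    rw [Lam_zero, Real.exp_log hmu] at h
    refine h.congr' ?_
    filter_upwards [eventually_ge_atTop 1] with n hn
    rw [N_eq hn]
  · intro z hz hz1
    have he : 0 < -Real.log (z * H981.mu) := by
      have h1 : z * H981.mu < 1 := by rwa [lt_div_iff₀ hmu] at hz1
      have h2 := Real.log_neg (mul_pos hz hmu) h1
      linarith
    have hm := Y981.L2.mass_pos he
    constructor
    · unfold Y981.L2.xi
      positivity
    · have h := Y981.L2.G_tendsto hz hz1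
      unfold Y981.L2.xi
      rw [one_div_one_div]
      refine h.congr ?_
      intro k
      rw [G_eq]
  · intro x hx
    refine ⟨?_, lam_nonneg hx, lam_le hx, ?_, ?_⟩
    · simp only [Z_eq]
      exact lam_tendsto hx
    · intro h4
      by_contra hcon
      push Not at hcon
      have h5 : Real.log (H981.mu * x) ≤ 0 := by
        apply Real.log_nonpos (by positivity)
        rw [le_div_iff₀ hmu] at hcon
        linarith
      have h6 := lam_le hx
      rw [max_eq_left h5] at h6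
      linarith
    · intro h4
      have h5 : 0 < Real.log (H981.mu * x) := by
        apply Real.log_pos
        rw [div_lt_iff₀ hmu] at h4
        linarith
      -- `2 n log(μ x)` is larger than `K (log n)²` for large `n`
      have h6 : Tendsto (fun n : ℕ => Real.log (n : ℝ) ^ 2 / (n : ℝ)) atTop (𝓝 0) := by
        have := (Real.isLittleO_pow_log_id_atTop (n := 2)).tendsto_div_nhds_zero
        exact this.comp tendsto_natCast_atTop_atTop
      have h7 := h6.eventually (gt_mem_nhds (by positivity : 0 < 2 * Real.log (H981.mu * x) / K))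
      obtain ⟨n, hn1, hn2⟩ := (h7.and (eventually_ge_atTop 2)).exists
      have hn0 : (0 : ℝ) < n := by exact_mod_cast (by omega : 0 < n)
      rw [div_lt_div_iff₀ hn0 hK0] at hn1
      have hW := hW1 n hn2
      refine lt_of_lt_of_le ?_ (hd n hn2 x hx)
      apply div_pos _ (by positivity)
      linarith
  · intro x y hx hxy
    exact lam_mono hx hxy
  · intro n hn
    refine ⟨hf n hn, ?_⟩
    have hn0 : (0 : ℝ) < n := by exact_mod_cast (by omega : 0 < n)
    have hL : 0 < Real.log n := Real.log_pos (by exact_mod_cast (by omega : 1 < n))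
    have hm : 0 < Y981.L2.mass (1 / (2 * (n : ℝ))) := Y981.L2.mass_pos (by positivity)
    have hxi : Y981.L2.xi (Real.exp (-1 / (2 * n)) / H981.mu) =
        1 / Y981.L2.mass (1 / (2 * (n : ℝ))) := by
      unfold Y981.L2.xi
      have e := Y981.L2.e_z (1 / (2 * (n : ℝ)))
      have e2 : -(1 / (2 * (n : ℝ))) = -1 / (2 * n) := by ring
      rw [e2] at e
      rw [e]
    rw [hxi]
    obtain ⟨X, hX⟩ : ∃ X : ℝ, X = 1 / Y981.L2.mass (1 / (2 * (n : ℝ))) := ⟨_, rfl⟩
    obtain ⟨l, hl⟩ : ∃ l : ℝ, l = lam (Real.exp (K * Real.log n ^ 2 / n) / H981.mu) := ⟨_, rfl⟩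
    have hl0 : 0 ≤ l := by rw [hl]; exact lam_nonneg (by positivity)
    have hX0 : 0 < X := by rw [hX]; positivity
    have h4 := hf0 n hn
    have h5 : W n ≤ K3 * X * Real.log n ^ 2 := by
      have : W n = Y981.L2.mw n := rfl
      rw [this, hX]
      exact h3 n hn
    have hW := hW1 n hn
    rw [← hl] at h4
    rw [← hX, ← hl]
    have h6 : W n ^ 2 ≤ (K3 * X * Real.log n ^ 2) ^ 2 :=
      pow_le_pow_left₀ (by linarith) h5 2
    have h7 : K * Real.log n ^ 2 ≤ 25 * (K3 * X * Real.log n ^ 2) ^ 2 * l := by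
      refine h4.trans ?_
      apply mul_le_mul_of_nonneg_right _ hl0
      linarith
    have h8 : 25 * K3 ^ 2 ≤ K ^ 2 := by
      have : 5 * K3 ≤ K := by rw [hK]; linarith
      have := pow_le_pow_left₀ (by positivity) this 2
      linarith [this, mul_pow 5 K3 2]
    have h9 : K * Real.log n ^ 2 * 1 ≤ K * Real.log n ^ 2 * (K * l * X ^ 2 * Real.log n ^ 2) := by
      have h10 : 0 ≤ X ^ 2 * Real.log n ^ 4 * l := by positivity
      have h11 := mul_le_mul_of_nonneg_right h8 h10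
      linarith
    exact le_of_mul_le_mul_left h9 (by positivity)
  · intro k n hk hn
    obtain ⟨w, hw, h4⟩ := h2 k n hk hn
    have hkn : 1 ≤ k ^ 2 * n := Nat.mul_pos (Nat.pos_of_ne_zero (by positivity)) (by omega)
    rw [N_eq hkn, W_eq (by omega)]
    refine le_trans (Real.exp_le_exp.2 ?_) (h4.trans ?_)
    · apply neg_le_neg
      have h5 : K2 ≤ K := by rw [hK]; linarith
      have h6 : (0 : ℝ) ≤ (k : ℝ) ^ 2 * Real.log n ^ 2 := by positivity
      have := mul_le_mul_of_nonneg_right h5 h6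
      linarith
    · apply div_le_div_of_nonneg_right _ (Zl_pos 0 hkn).le
      exact Nsq_ge hkn hw
  · intro θ C hθ hC
    refine width_of_pressure (lm := fun n => lam (Real.exp (K * Real.log n ^ 2 / n) / H981.mu))
      (C := C) hK0 hθ hW1 hf ?_
    intro n hn h4
    have hn0 : (0 : ℝ) < n := by exact_mod_cast (by omega : 0 < n)
    have hL : 0 < Real.log n := Real.log_pos (by exact_mod_cast (by omega : 1 < n))
    exact hC _ (by positivity) (by rw [div_le_one hn0]; exact h4)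

end Pool.Agent.Results.MP_c23e5f_co.SupercriticalPressure
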